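import Mathlib
import Pool.Agent.MP_b8b299_co.H56.Lower

set_option autoImplicit false

/-!
New upper and lower bounds for the growth rate of the number of `k`-dominating independent sets.
-/

namespace Pool.Agent.Results.MP_b8b299_co.Bounds

open Filter Topology Pool.Agent.MP_b8b299_co.H56

theorem result (k : ℕ) (hk : 3 ≤ k) :
    (∀ n : ℕ, (mi k n : ℝ) ≤ Real.exp (6 / (10 * k + 5) * n)) ∧
    ∀ L : ℝ, Tendsto (fun n : ℕ => (mi k n : ℝ) ^ (1 / (n : ℝ))) atTop (𝓝 L) →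
      L ≤ Real.exp (6 / (10 * k + 5)) ∧
      (∀ t : ℕ, k = 3 * t → (8 : ℝ) ^ (1 / (16 * (t : ℝ))) ≤ L) ∧
      ∀ j : ℕ, k = 2 * j + 1 → (6 : ℝ) ^ (1 / (9 * (j : ℝ) + 6)) ≤ L := by
  refine ⟨mi_le hk, fun L h => ⟨?_, ?_, ?_⟩⟩
  · refine le_of_tendsto h (eventually_atTop.2 ⟨1, fun n hn => ?_⟩)
    have n0 : (0 : ℝ) < n := by exact_mod_cast hn
    refine (Real.rpow_le_rpow (Nat.cast_nonneg _) (mi_le hk n) (by positivity)).trans_eq ?_
    rw [← Real.exp_mul]
    congr 1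
    field_simp
  · rintro t rfl
    exact_mod_cast le_lim (by omega) (four t (by omega)) h
  · rintro j rfl
    exact_mod_cast le_lim (by omega) (three j (by omega)) h

end Pool.Agent.Results.MP_b8b299_co.Bounds
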