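import Mathlib
import Pool.Agent.MP_b8b299_co.H91.Main

set_option autoImplicit false

/-!
The case `k = 2`: the growth rate of the number of `2`-dominating independent sets is
`6 ^ (1 / 9)`, and it is attained by the Cartesian square of the triangle.
-/

namespace Pool.Agent.Results.MP_b8b299_co.CaseTwo

open Filter Topology Pool.Agent.MP_b8b299_co.H56

theorem result :
    (∀ n : ℕ, (mi 2 n : ℝ) ≤ (6 : ℝ) ^ ((n : ℝ) / 9)) ∧
    Tendsto (fun n : ℕ => (mi 2 n : ℝ) ^ (1 / (n : ℝ))) atTop (𝓝 ((6 : ℝ) ^ (1 / 9 : ℝ))) ∧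
    {D | IsDIS 2 ((⊤ : SimpleGraph (Fin 3)).boxProd (⊤ : SimpleGraph (Fin 3))) D}.ncard = 6 :=
  ⟨Pool.Agent.MP_b8b299_co.H91.upper, Pool.Agent.MP_b8b299_co.H91.limit,
    Pool.Agent.MP_b8b299_co.H91.six⟩

end Pool.Agent.Results.MP_b8b299_co.CaseTwo
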