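import Mathlib
import Pool.Agent.MP_b8b299_co.H44.Pots

set_option autoImplicit false

/-!
An upper bound for the number of `k`-dominating independent sets, from a random order argument.
-/

namespace Pool.Agent.Results.MP_b8b299_co.OrderBound

open Pool.Agent.MP_b8b299_co.H56

theorem result (k : ℕ) (hk : 1 ≤ k) (n : ℕ) :
    (∀ c : ℝ, 0 ≤ c →
      (∀ a : ℝ, 0 ≤ a → ∫ x in (0 : ℝ)..1, Real.log (1 + x ^ (k - 1) * a) ≤ c * (1 + a)) →
      (mi k n : ℝ) ≤ Real.exp (c * n)) ∧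
    (mi k n : ℝ) ≤ Real.exp (49 / (100 * k) * n) ∧
    (k = 3 → (mi k n : ℝ) ≤ Real.exp (19 / 125 * n)) :=
  ⟨fun _ c0 hc => Pool.Agent.MP_b8b299_co.H44.mi_le_int hk c0 hc n,
    Pool.Agent.MP_b8b299_co.H44.mi_le_all hk n,
    fun h => h ▸ Pool.Agent.MP_b8b299_co.H44.mi_le_three n⟩

end Pool.Agent.Results.MP_b8b299_co.OrderBound
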